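import Pool.Agent.Lib.MP_a55e6f_al.Interfaces

/-!
# MP_a55e6f_al (S02584), module P3l: `B` is a free left module over `U_D`
-/

set_option autoImplicit false

open MvPolynomial

attribute [local instance 100] LieRing.ofAssociativeRing

namespace Pool.Agent.A55.H66.P3l

/-! ## Sorted monomials over a lexicographic sum -/

section sumlex
variable {J1 J2 : Type} [LinearOrder J1] [LinearOrder J2]

/-- The multiset over the lexicographic sum with the given two parts. -/
def join (p : Multiset J1 × Multiset J2) : Multiset (J1 ⊕ₗ J2) :=
  p.1.map (fun j => toLex (Sum.inl j)) + p.2.map (fun j => toLex (Sum.inr j))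

theorem sort_join (p : Multiset J1 × Multiset J2) :
    (join p).sort (· ≤ ·) = (p.1.sort (· ≤ ·)).map (fun j => toLex (Sum.inl j)) ++
      (p.2.sort (· ≤ ·)).map (fun j => toLex (Sum.inr j)) := by
  obtain ⟨s, t⟩ := p
  refine List.Perm.eq_of_pairwise' (r := (· ≤ ·)) (Multiset.pairwise_sort _ _) ?_ ?_
  · rw [List.pairwise_append]
    refine ⟨?_, ?_, ?_⟩
    · rw [List.pairwise_map]
      exact (Multiset.pairwise_sort s (· ≤ ·)).imp fun h => Sum.Lex.inl_le_inl_iff.2 h
    · rw [List.pairwise_map]
      exact (Multiset.pairwise_sort t (· ≤ ·)).imp fun h => Sum.Lex.inr_le_inr_iff.2 h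
    · intro a ha b hb
      obtain ⟨a', -, rfl⟩ := List.mem_map.1 ha
      obtain ⟨b', -, rfl⟩ := List.mem_map.1 hb
      exact Sum.Lex.inl_le_inr a' b'
  · rw [← Multiset.coe_eq_coe, Multiset.sort_eq, ← Multiset.coe_add, ← Multiset.map_coe,
      ← Multiset.map_coe, Multiset.sort_eq, Multiset.sort_eq]
    rfl

theorem mono_join {Q : Type} [Monoid Q] (x : J1 ⊕ₗ J2 → Q) (p : Multiset J1 × Multiset J2) :
    mono x (join p) = mono (fun j => x (toLex (Sum.inl j))) p.1 *
      mono (fun j => x (toLex (Sum.inr j))) p.2 := by
  rw [mono, sort_join, List.map_append, List.prod_append, List.map_map, List.map_map]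
  rfl

omit [LinearOrder J1] [LinearOrder J2] in
theorem join_injective : Function.Injective (join : Multiset J1 × Multiset J2 → _) := by
  rintro ⟨s, t⟩ ⟨s', t'⟩ h
  have hl : ∀ p : Multiset J1 × Multiset J2,
      (join p).filterMap (fun a => (ofLex a).getLeft?) = p.1 := by
    rintro ⟨s, t⟩
    rw [join, Multiset.filterMap_add, Multiset.filterMap_map, Multiset.filterMap_map]
    have h1 : ((fun a : J1 ⊕ₗ J2 => (ofLex a).getLeft?) ∘ fun j : J1 => toLex (Sum.inl j)) = some := by
      funext j; simp
    have h2 : ((fun a : J1 ⊕ₗ J2 => (ofLex a).getLeft?) ∘ fun j : J2 => toLex (Sum.inr j)) =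
        fun _ => none := by
      funext j; simp
    rw [h1, h2, Multiset.filterMap_some]
    have h3 : ∀ t : Multiset J2, Multiset.filterMap (fun _ : J2 => (none : Option J1)) t = 0 := by
      intro t
      induction t using Multiset.induction with
      | empty => simp
      | cons a t ih => rw [Multiset.filterMap_cons_none _ _ rfl, ih]
    rw [h3, add_zero]
  have hr : ∀ p : Multiset J1 × Multiset J2,
      (join p).filterMap (fun a => (ofLex a).getRight?) = p.2 := by
    rintro ⟨s, t⟩
    rw [join, Multiset.filterMap_add, Multiset.filterMap_map, Multiset.filterMap_map]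
    have h1 : ((fun a : J1 ⊕ₗ J2 => (ofLex a).getRight?) ∘ fun j : J2 => toLex (Sum.inr j)) = some := by
      funext j; simp
    have h2 : ((fun a : J1 ⊕ₗ J2 => (ofLex a).getRight?) ∘ fun j : J1 => toLex (Sum.inl j)) =
        fun _ => none := by
      funext j; simp
    rw [h1, h2, Multiset.filterMap_some]
    have h3 : ∀ t : Multiset J1, Multiset.filterMap (fun _ : J1 => (none : Option J2)) t = 0 := by
      intro t
      induction t using Multiset.induction with
      | empty => simp
      | cons a t ih => rw [Multiset.filterMap_cons_none _ _ rfl, ih]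
    rw [h3, zero_add]
  have h1 := hl (s, t)
  have h2 := hr (s, t)
  rw [h] at h1 h2
  rw [hl] at h1
  rw [hr] at h2
  exact Prod.ext h1.symm h2.symm

omit [LinearOrder J1] [LinearOrder J2] in
theorem join_surjective : Function.Surjective (join : Multiset J1 × Multiset J2 → _) := by
  intro u
  induction u using Multiset.induction with
  | empty => exact ⟨(0, 0), by simp [join]⟩
  | cons a u ih =>
    obtain ⟨⟨s, t⟩, rfl⟩ := ih
    induction a using Lex.rec with
    | h a =>
    rcases a with a | a
    · exact ⟨(a ::ₘ s, t), by simp [join]⟩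
    · exact ⟨(s, a ::ₘ t), by simp [join]⟩

end sumlex

section basis
variable {k M : Type} [Field k] [Monoid M]

/-- A PBW basis of `B` adapted to `D ≤ G`. -/
theorem exists_basis (hPB : PBWStatement) (hSP : SpanStatement)
    (G : LieSubalgebra k (MonoidAlgebra k M)) (hG : EnvPair G)
    (D : LieSubalgebra k (MonoidAlgebra k M)) (hD : D ≤ G) :
    ∃ (J1 J2 : Type) (_ : LinearOrder J1) (_ : LinearOrder J2) (d : J1 → MonoidAlgebra k M)
      (e : J2 → MonoidAlgebra k M),
      LinearIndependent k (fun p : Multiset J1 × Multiset J2 => mono d p.1 * mono e p.2) ∧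
      Submodule.span k (Set.range fun p : Multiset J1 × Multiset J2 => mono d p.1 * mono e p.2)
        = ⊤ ∧
      Submodule.span k (Set.range fun s : Multiset J1 => mono d s) =
        Subalgebra.toSubmodule (Algebra.adjoin k (D : Set (MonoidAlgebra k M))) := by
  classical
  let inc : G →ₗ[k] MonoidAlgebra k M := (G.incl : G →ₗ[k] MonoidAlgebra k M)
  have hinc : ∀ g : G, inc g = (g : MonoidAlgebra k M) := fun g => rfl
  let D' : Submodule k G := D.toSubmodule.comap inc
  obtain ⟨K, hK⟩ := D'.exists_isCompl
  let b1 := Module.Basis.ofVectorSpace k D'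
  let b2 := Module.Basis.ofVectorSpace k K
  let J1 : Type := Module.Basis.ofVectorSpaceIndex k D'
  let J2 : Type := Module.Basis.ofVectorSpaceIndex k K
  let o1 : LinearOrder J1 := IsWellOrder.linearOrder WellOrderingRel
  let o2 : LinearOrder J2 := IsWellOrder.linearOrder WellOrderingRel
  let b : Module.Basis (J1 ⊕ J2) k G := (b1.prod b2).map (Submodule.prodEquivOfIsCompl D' K hK)
  let b' : Module.Basis (J1 ⊕ₗ J2) k G := b.reindex toLex
  let d : J1 → MonoidAlgebra k M := fun j => ((b1 j : G) : MonoidAlgebra k M)
  let e : J2 → MonoidAlgebra k M := fun j => ((b2 j : G) : MonoidAlgebra k M)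
  have hb1 : ∀ j : J1, ((b' (toLex (Sum.inl j)) : G) : MonoidAlgebra k M) = d j := by
    intro j
    simp [b', b, d]
  have hb2 : ∀ j : J2, ((b' (toLex (Sum.inr j)) : G) : MonoidAlgebra k M) = e j := by
    intro j
    simp [b', b, e]
  obtain ⟨hli, hsp⟩ := hPB k M G hG (J1 ⊕ₗ J2) b'
  have hmono : ∀ p : Multiset J1 × Multiset J2,
      mono (fun j => ((b' j : G) : MonoidAlgebra k M)) (join p) = mono d p.1 * mono e p.2 := by
    intro p
    rw [mono_join]
    simp only [hb1, hb2]
  refine ⟨J1, J2, o1, o2, d, e, ?_, ?_, ?_⟩
  · have h1 := hli.comp join join_injective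
    have h2 : (fun s : Multiset (J1 ⊕ₗ J2) =>
        mono (fun j => ((b' j : G) : MonoidAlgebra k M)) s) ∘ join =
        fun p : Multiset J1 × Multiset J2 => mono d p.1 * mono e p.2 := by
      funext p
      exact hmono p
    rwa [h2] at h1
  · rw [eq_top_iff, ← hsp]
    refine Submodule.span_mono ?_
    rintro _ ⟨s, rfl⟩
    obtain ⟨p, rfl⟩ := join_surjective s
    exact ⟨p, (hmono p).symm⟩
  · have hDspan : Submodule.span k (Set.range d) = D.toSubmodule := by
      have h1 : D.toSubmodule = D'.map inc := by
        apply le_antisymm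
        · intro x hx
          exact ⟨⟨x, hD hx⟩, hx, rfl⟩
        · rintro _ ⟨g, hg, rfl⟩
          exact hg
      have h2 : D' = (Submodule.span k (Set.range b1)).map D'.subtype := by
        rw [b1.span_eq]
        simp
      rw [h1]
      conv_rhs => rw [h2]
      rw [Submodule.map_span, Submodule.map_span, ← Set.range_comp, ← Set.range_comp]
      rfl
    have hmemD : ∀ j, d j ∈ D := by
      intro j
      have : d j ∈ D.toSubmodule := by
        rw [← hDspan]
        exact Submodule.subset_span ⟨j, rfl⟩
      exact this
    rw [hSP k _ J1 d ?_]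
    · have h3 : Algebra.adjoin k (Set.range d) =
          Algebra.adjoin k (D : Set (MonoidAlgebra k M)) := by
        rw [← Algebra.adjoin_span, hDspan]
        rfl
      rw [h3]
    · intro i j
      rw [hDspan]
      have := D.lie_mem (hmemD i) (hmemD j)
      exact this

end basis

/-- Module P3l. -/
theorem p3l (hPB : PBWStatement) (hSP : SpanStatement) : P3lStatement := by
  intro k M _ _ G hG D hD b hb
  classical
  obtain ⟨J1, J2, o1, o2, d, e, hli, hsp, hU⟩ := exists_basis hPB hSP G hG D hD
  let B := Module.Basis.mk hli (by rw [hsp])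
  have hB : ∀ p : Multiset J1 × Multiset J2, B p = mono d p.1 * mono e p.2 := fun p => by simp [B]
  have hd : LinearIndependent k (fun s : Multiset J1 => mono d s * mono e (0 : Multiset J2)) :=
    hli.comp (fun s : Multiset J1 => (s, (0 : Multiset J2))) (fun s t h => (Prod.ext_iff.1 h).1)
  have he0 : mono e (0 : Multiset J2) = 1 := by simp [mono]
  simp only [he0, mul_one] at hd
  let π : Multiset J2 → MonoidAlgebra k M →ₗ[k] MonoidAlgebra k M := fun α =>
    B.constr k (fun p => if p.2 = α then mono d p.1 else 0)
  have hπ : ∀ (α : Multiset J2) (p : Multiset J1 × Multiset J2), π α (mono d p.1 * mono e p.2) = if p.2 = α then mono d p.1 else 0 := by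
    intro α p
    rw [← hB]
    exact B.constr_basis k _ p
  have hmem : ∀ s : Multiset J1, mono d s ∈ Algebra.adjoin k (D : Set (MonoidAlgebra k M)) := by
    intro s
    have : mono d s ∈ Subalgebra.toSubmodule (Algebra.adjoin k (D : Set (MonoidAlgebra k M))) := by
      rw [← hU]
      exact Submodule.subset_span ⟨s, rfl⟩
    exact this
  -- choose α
  have hrep : B.repr b ≠ 0 := by
    intro h
    exact hb (by simpa using h)
  obtain ⟨⟨s0, α⟩, hs0⟩ := Finsupp.ne_iff.1 hrep
  refine ⟨π α, ?_, ?_, ?_⟩
  · intro h0
    have h1 : π α b = (B.repr b).sum fun p c => c • (if p.2 = α then mono d p.1 else 0) := by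
      simp only [π, Module.Basis.constr_apply]
    rw [h1] at h0
    -- linear combination of the mono d s
    let f : (Multiset J1) →₀ k := Finsupp.comapDomain (fun s => (s, α)) (B.repr b)
      (fun s _ t _ h => (Prod.ext_iff.1 h).1)
    have hf : ∀ s, f s = B.repr b (s, α) := fun s => rfl
    have h2 : Finsupp.linearCombination k (fun s : Multiset J1 => mono d s) f = 0 := by
      rw [← h0, Finsupp.linearCombination_apply, Finsupp.sum, Finsupp.sum]
      symm
      rw [← Finset.sum_filter_add_sum_filter_not (B.repr b).support (fun p => p.2 = α)]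
      rw [Finset.sum_eq_zero (s := (B.repr b).support.filter (fun p => ¬ p.2 = α)), add_zero]
      · refine (Finset.sum_bij (fun s _ => (s, α)) ?_ ?_ ?_ ?_).symm
        · intro s hs
          rw [Finset.mem_filter]
          refine ⟨?_, rfl⟩
          rw [Finsupp.mem_support_iff] at hs ⊢
          rwa [hf] at hs
        · intro s _ t _ h
          exact (Prod.ext_iff.1 h).1
        · rintro ⟨s, t⟩ hp
          rw [Finset.mem_filter] at hp
          obtain ⟨hp1, hp2⟩ := hp
          simp only at hp2
          subst hp2
          refine ⟨s, ?_, rfl⟩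
          rw [Finsupp.mem_support_iff] at hp1 ⊢
          rwa [hf]
        · intro s _
          rw [hf, if_pos rfl]
      · intro p hp
        rw [Finset.mem_filter] at hp
        rw [if_neg hp.2, smul_zero]
    have h3 := (linearIndependent_iff.1 hd) f h2
    have h4 : f s0 = 0 := by rw [h3]; rfl
    apply hs0
    rw [hf] at h4
    simpa using h4
  · intro x
    have hx : x ∈ Submodule.span k
        (Set.range fun p : Multiset J1 × Multiset J2 => mono d p.1 * mono e p.2) := by
      rw [hsp]; trivial
    induction hx using Submodule.span_induction with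
    | mem y hy =>
      obtain ⟨p, rfl⟩ := hy
      simp only [hπ]
      split_ifs
      · exact hmem _
      · exact Subalgebra.zero_mem _
    | zero => rw [map_zero]; exact Subalgebra.zero_mem _
    | add y z _ _ hy hz => rw [map_add]; exact Subalgebra.add_mem _ hy hz
    | smul c y _ hy => rw [map_smul]; exact Subalgebra.smul_mem _ hy c
  · intro x u hu
    have hx : x ∈ Submodule.span k
        (Set.range fun p : Multiset J1 × Multiset J2 => mono d p.1 * mono e p.2) := by
      rw [hsp]; trivial
    induction hx using Submodule.span_induction with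
    | mem y hy =>
      obtain ⟨p, rfl⟩ := hy
      simp only
      have h1 : u * mono d p.1 ∈ Submodule.span k (Set.range fun s : Multiset J1 => mono d s) := by
        rw [hU]
        exact Subalgebra.mul_mem _ hu (hmem _)
      have h2 : ∀ y ∈ Submodule.span k (Set.range fun s : Multiset J1 => mono d s),
          π α (y * mono e p.2) = if p.2 = α then y else 0 := by
        intro y hy
        induction hy using Submodule.span_induction with
        | mem y hy =>
          obtain ⟨s, rfl⟩ := hy
          exact hπ α (s, p.2)
        | zero => simp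
        | add y z _ _ hy hz =>
          rw [add_mul, map_add, hy, hz]
          split_ifs <;> simp
        | smul c y _ hy =>
          rw [smul_mul_assoc, map_smul, hy]
          split_ifs <;> simp
      rw [← mul_assoc, h2 _ h1, hπ]
      split_ifs <;> simp
    | zero => simp
    | add y z _ _ hy hz => rw [mul_add, map_add, map_add, hy, hz, mul_add]
    | smul c y _ hy => rw [mul_smul_comm, map_smul, map_smul, hy, mul_smul_comm]

end Pool.Agent.A55.H66.P3l
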